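import Mathlib
import Pool.Agent.Lib.Helper30.Ach.Main

/-!
# MP_5b30f8_an: Miska's inequality for every summable sequence of positive reals

For every summable sequence `x` of positive reals with achievement set `E`,
`dim_H E ≥ dim_H (E + E) / 2`; the set `E + E` need not be a Cantor set.
-/

set_option autoImplicit false

open scoped Pointwise

namespace Pool.Agent.Results.MP_5b30f8_an.EverySequence

theorem result :
    ∀ x : ℕ → ℝ, (∀ n, 0 < x n) → Summable x →
      dimH ((Set.range (fun A : Set ℕ => ∑' n, A.indicator x n)) +
          (Set.range (fun A : Set ℕ => ∑' n, A.indicator x n)) : Set ℝ) / 2 ≤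
        dimH (Set.range (fun A : Set ℕ => ∑' n, A.indicator x n)) :=
  fun _ hx hs => Pool.Agent.Lib.Helper30.Ach.dimH_achSet_add_le hx hs

end Pool.Agent.Results.MP_5b30f8_an.EverySequence
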